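import Pool.Agent.Helper88.TU.Size
import Pool.Agent.Helper6.RR.BO
import Pool.Agent.Helper8.GM.TL

/-! # TL (project TU): counting with the Brun-Hooley sieve -/

set_option autoImplicit false

open Finset Filter Topology

open scoped Classical

namespace Pool.Agent.Helper51.TU

open Pool.Agent.Helper88.TU
open Pool.Agent.Helper88.PP (pr Rg om Sf SS uu vv ee LA VV QQ XX cost)
open Pool.Agent.Helper88.RR (gg)
open Pool.Agent.Helper88.GM (NI XI In)
open Pool.Agent.Helper74.PP (sw nu_sw crt ap_exists M_lower)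
open Pool.Agent.Helper64.RR (mem_pr)
open Pool.Agent.Helper8.GM (XX_le_XI)
open Pool.Agent.Helper6.RR (per_bound prod_per)

theorem hit_sub (y z : ℕ) (B : Finset ℕ) (n : ℕ) : hit y z B n ⊆ pr y z := filter_subset _ _

theorem hit_empty (y z : ℕ) (B : Finset ℕ) (n : ℕ) :
    hit y z B n = ∅ ↔ ∀ i ∈ B, Rg y z (n + i) := by
  rw [hit, filter_eq_empty_iff]
  constructor
  · intro h i hi p hp hd
    exact h hp ⟨i, hi, hd⟩
  · rintro h p hp ⟨i, hi, hd⟩
    exact h i hi p hp hd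

theorem prod_sw_hit (y z a q : ℕ) (B A : Finset ℕ) (hA : A ⊆ pr y z) (t : ℕ) :
    ∏ p ∈ A, sw y z a q B p t = if A ⊆ hit y z B (a + q * t) then (1 : ℝ) else 0 := by
  split_ifs with h
  · refine Finset.prod_eq_one fun p hp => ?_
    obtain ⟨h1, h2⟩ := mem_filter.1 (h hp)
    obtain ⟨h3, h4, h5⟩ := mem_pr.1 h1
    rw [sw, if_pos ⟨h3, h4, h2⟩]
  · rw [Finset.not_subset] at h
    obtain ⟨p, hp, hn⟩ := h
    refine Finset.prod_eq_zero hp ?_
    rw [sw, if_neg]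
    rintro ⟨_, _, h6⟩
    exact hn (mem_filter.2 ⟨hA hp, h6⟩)

/-- the integers in the class, with the divisibility conditions -/
noncomputable def FF (u v Q b : ℕ) (B : Finset ℕ) (d : ℕ → ℕ) : Finset ℕ :=
  (NI u v Q b).filter (fun n => ∀ i ∈ B, d i ∣ n + i)

theorem count_hit (u v Q y z b : ℕ) (B : Finset ℕ) (d : ℕ → ℕ) (huv : u ≤ v) (hb : b < Q)
    (hd : ∀ i ∈ B, 0 < d i) (hc : ∀ i ∈ B, Nat.Coprime Q (d i))
    (hcc : ∀ i ∈ B, ∀ j ∈ B, i ≠ j → Nat.Coprime (d i) (d j)) (hBy : B ⊆ Icc 1 y)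
    (hq : ∀ p : ℕ, p.Prime → y < p → p ≤ z → ¬ p ∣ Q * ∏ i ∈ B, d i)
    (A : Finset ℕ) (hA : A ⊆ pr y z) :
    |(((FF u v Q b B d).filter (fun n => A ⊆ hit y z B n)).card : ℝ)
      - XI u v Q / (∏ i ∈ B, (d i : ℝ)) * ∏ p ∈ A, ((B.card : ℝ) / p)|
      ≤ 2 * (B.card : ℝ) ^ A.card := by
  have hQ : 0 < Q := by omega
  set q := Q * ∏ i ∈ B, d i with hqdef
  have hq0 : 0 < q := Nat.mul_pos hQ (Finset.prod_pos hd)
  obtain ⟨r, hr⟩ := crt Q b hb B d hd hc hcc
  obtain ⟨a, N, hset, hN⟩ := ap_exists u v q r hq0 huv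
  have e1 : (((FF u v Q b B d).filter (fun n => A ⊆ hit y z B n)).card : ℝ) =
      ∑ t ∈ range N, ∏ p ∈ A, sw y z a q B p t := by
    have h1 : FF u v Q b B d = (range N).image (fun t => a + q * t) := by
      rw [← hset, FF]
      ext n
      simp only [NI, mem_filter]
      constructor
      · rintro ⟨⟨h1, h2⟩, h3⟩
        exact ⟨h1, (hr n).1 ⟨h2, h3⟩⟩
      · rintro ⟨h1, h2⟩
        have h4 := (hr n).2 h2
        exact ⟨⟨h1, h4.1⟩, h4.2⟩
    rw [h1, Finset.card_filter]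
    push_cast
    rw [Finset.sum_image]
    · exact Finset.sum_congr rfl fun t _ => (prod_sw_hit y z a q B A hA t).symm
    · intro t _ s _ hts
      have h2 : q * t = q * s := by
        have : a + q * t = a + q * s := hts
        omega
      exact Nat.eq_of_mul_eq_mul_left hq0 h2
  have hprA : ∀ p ∈ A, p.Prime := fun p hp => (mem_pr.1 (hA hp)).2.2
  obtain ⟨g1, g2⟩ := prod_per (sw y z a q B) A hprA (fun p _ t => by
    rw [sw, sw]
    refine if_congr ?_ rfl rfl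
    have h : ∀ i, p ∣ a + q * (t + p) + i ↔ p ∣ a + q * t + i := fun i => by
      rw [show a + q * (t + p) + i = (a + q * t + i) + q * p by ring]
      exact (Nat.dvd_add_left (dvd_mul_left p q))
    simp only [h])
  have hm : 0 < ∏ p ∈ A, p := prod_pos fun p hp => (hprA p hp).pos
  have h3 := per_bound (f := fun t => ∏ p ∈ A, sw y z a q B p t) hm g1
    (fun t => prod_nonneg fun p _ => by
      rw [sw]
      split_ifs <;> norm_num) N
  rw [g2] at h3
  have h4 : ∏ p ∈ A, ∑ t ∈ range p, sw y z a q B p t = (B.card : ℝ) ^ A.card := by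
    rw [← Finset.prod_const]
    refine Finset.prod_congr rfl fun p hp => ?_
    obtain ⟨f1, f2, f3⟩ := mem_pr.1 (hA hp)
    have f4 := nu_sw y z a q p B f3 hBy (hq p f3)
    rw [if_pos ⟨f1, f2⟩] at f4
    exact f4
  have h5 : (B.card : ℝ) ^ A.card / ((∏ p ∈ A, p : ℕ) : ℝ) = ∏ p ∈ A, ((B.card : ℝ) / p) := by
    rw [Nat.cast_prod, prod_div_distrib, prod_const]
  rw [h4, h5] at h3
  rw [e1]
  have h6 : XI u v Q / ∏ i ∈ B, (d i : ℝ) = ((v - u : ℕ) : ℝ) / (q : ℝ) := by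
    rw [XI, hqdef]
    push_cast
    rw [div_div]
  rw [← h6] at hN
  have h7 : 0 ≤ ∏ p ∈ A, ((B.card : ℝ) / p) := prod_nonneg fun p _ => by positivity
  have h8 : ∏ p ∈ A, ((B.card : ℝ) / p) ≤ (B.card : ℝ) ^ A.card := by
    rw [← Finset.prod_const]
    refine Finset.prod_le_prod (fun p _ => by positivity) fun p hp => ?_
    have : (1 : ℝ) ≤ p := by exact_mod_cast (hprA p hp).pos
    exact div_le_self (Nat.cast_nonneg _) this
  have h9 : |(N : ℝ) * ∏ p ∈ A, ((B.card : ℝ) / p)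
      - XI u v Q / (∏ i ∈ B, (d i : ℝ)) * ∏ p ∈ A, ((B.card : ℝ) / p)|
      ≤ (B.card : ℝ) ^ A.card := by
    rw [← sub_mul, abs_mul, abs_of_nonneg h7]
    calc |(N : ℝ) - XI u v Q / ∏ i ∈ B, (d i : ℝ)| * ∏ p ∈ A, ((B.card : ℝ) / p)
        ≤ 1 * (B.card : ℝ) ^ A.card := mul_le_mul hN h8 h7 (by norm_num)
      _ = _ := one_mul _
  calc |∑ t ∈ range N, ∏ p ∈ A, sw y z a q B p t
        - XI u v Q / (∏ i ∈ B, (d i : ℝ)) * ∏ p ∈ A, ((B.card : ℝ) / p)|
      ≤ |∑ t ∈ range N, ∏ p ∈ A, sw y z a q B p t - N * ∏ p ∈ A, ((B.card : ℝ) / p)|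
        + |(N : ℝ) * ∏ p ∈ A, ((B.card : ℝ) / p)
      - XI u v Q / (∏ i ∈ B, (d i : ℝ)) * ∏ p ∈ A, ((B.card : ℝ) / p)| := abs_sub_le _ _ _
    _ ≤ (B.card : ℝ) ^ A.card + (B.card : ℝ) ^ A.card := add_le_add h3 h9
    _ = _ := by ring

theorem sum_hit (F : Finset ℕ) (y z : ℕ) (B : Finset ℕ) (M : ℝ) (Ac : Finset (Finset ℕ))
    (hAc : ∀ A ∈ Ac, |((F.filter (fun n => A ⊆ hit y z B n)).card : ℝ)
      - M * ∏ p ∈ A, ((B.card : ℝ) / p)| ≤ 2 * (B.card : ℝ) ^ A.card) :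
    |∑ n ∈ F, ∑ A ∈ Ac.filter (fun A => A ⊆ hit y z B n), (-1 : ℝ) ^ A.card
      - M * ∑ A ∈ Ac, (-1 : ℝ) ^ A.card * ∏ p ∈ A, ((B.card : ℝ) / p)|
      ≤ 2 * ∑ A ∈ Ac, (B.card : ℝ) ^ A.card := by
  have h1 : ∑ n ∈ F, ∑ A ∈ Ac.filter (fun A => A ⊆ hit y z B n), (-1 : ℝ) ^ A.card =
      ∑ A ∈ Ac, (-1 : ℝ) ^ A.card * ((F.filter (fun n => A ⊆ hit y z B n)).card : ℝ) := by
    simp only [sum_filter]
    rw [sum_comm]
    refine sum_congr rfl fun A _ => ?_
    rw [← sum_filter, sum_const, nsmul_eq_mul, mul_comm]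
  rw [h1, mul_sum, ← sum_sub_distrib, mul_sum]
  refine (abs_sum_le_sum_abs _ _).trans (sum_le_sum fun A hA => ?_)
  have h2 : (-1 : ℝ) ^ A.card * ((F.filter (fun n => A ⊆ hit y z B n)).card : ℝ)
      - M * ((-1 : ℝ) ^ A.card * ∏ p ∈ A, ((B.card : ℝ) / p)) =
      (-1 : ℝ) ^ A.card * (((F.filter (fun n => A ⊆ hit y z B n)).card : ℝ)
      - M * ∏ p ∈ A, ((B.card : ℝ) / p)) := by ring
  rw [h2, abs_mul, abs_pow, abs_neg, abs_one, one_pow, one_mul]
  exact hAc A hA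

theorem sum_pow_le (y z k Z : ℕ) (hk : k ≤ y) (Ac : Finset (Finset ℕ))
    (hAc : ∀ A ∈ Ac, A ⊆ pr y z) (hZ : ∀ A ∈ Ac, ∏ p ∈ A, p ≤ Z) :
    ∑ A ∈ Ac, (k : ℝ) ^ A.card ≤ (Z : ℝ) ^ 2 := by
  have h1 : Ac.card ≤ Z := by
    calc Ac.card ≤ (Icc 1 Z).card := by
          apply Finset.card_le_card_of_injOn (fun A => ∏ p ∈ A, p)
          · intro A hA
            have hA' : A ∈ Ac := hA
            exact Finset.mem_coe.2 (mem_Icc.2 ⟨prod_pos fun p hp => (mem_pr.1 (hAc A hA' hp)).2.2.pos,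
              hZ A hA'⟩)
          · intro A hA A' hA' h
            have hA1 : A ∈ Ac := hA
            have hA2 : A' ∈ Ac := hA'
            have e1 := Nat.primeFactors_prod (s := A) fun p hp => (mem_pr.1 (hAc A hA1 hp)).2.2
            have e2 := Nat.primeFactors_prod (s := A') fun p hp => (mem_pr.1 (hAc A' hA2 hp)).2.2
            have h' : ∏ p ∈ A, p = ∏ p ∈ A', p := h
            rw [← e1, ← e2, h']
      _ = Z := by simp
  calc ∑ A ∈ Ac, (k : ℝ) ^ A.card ≤ ∑ A ∈ Ac, (Z : ℝ) := by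
        refine sum_le_sum fun A hA => ?_
        have h2 : k ^ A.card ≤ ∏ p ∈ A, p := by
          rw [← prod_const]
          exact prod_le_prod' fun p hp => hk.trans (mem_pr.1 (hAc A hA hp)).1.le
        exact_mod_cast h2.trans (hZ A hA)
    _ = Ac.card * (Z : ℝ) := by rw [sum_const, nsmul_eq_mul]
    _ ≤ Z * (Z : ℝ) := by
        have : (Ac.card : ℝ) ≤ Z := by exact_mod_cast h1
        exact mul_le_mul_of_nonneg_right this (Nat.cast_nonneg _)
    _ = _ := by ring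

/-- the final estimate -/
theorem final (E z : ℕ) (M g cnt SU SE : ℝ) (hE : 2000 ≤ E) (hl : (E : ℝ) ≤ Real.log z)
    (hM : 1 / 2 * Real.exp (65 / 100 * (E * Real.log z)) ≤ M)
    (hg : Real.exp (-(1 / 10 * Real.log z)) ≤ g)
    (h1 : cnt ≤ SU) (h2 : SU ≤ cnt + SE)
    (h3 : |SU - M * g| ≤ Real.exp (-(E : ℝ)) * (M * g) + 2 * ((z ^ (E / 32) : ℕ) : ℝ) ^ 2)
    (h4 : SE ≤ Real.exp (-(E : ℝ)) * (M * g) + 2 * (z * ((z ^ (E / 32) : ℕ) : ℝ) ^ 2)) :
    |cnt - M * g| ≤ Real.exp (-(1 / 2 * E)) * (M * g) ∧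
      SE ≤ Real.exp (-(1 / 2 * E)) * (M * g) := by
  have hE' : (2000 : ℝ) ≤ E := by exact_mod_cast hE
  set l := Real.log z with hldef
  have hl0 : 2000 ≤ l := hE'.trans hl
  have hz0 : (0 : ℝ) < z := by
    by_contra hcon
    have h1 : (z : ℝ) = 0 := le_antisymm (not_lt.1 hcon) (Nat.cast_nonneg _)
    rw [hldef, h1, Real.log_zero] at hl0
    linarith
  have hz1 : (1 : ℝ) ≤ z := by
    by_contra hcon
    push Not at hcon
    have := Real.log_nonpos hz0.le hcon.le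
    linarith
  have hzl : Real.exp l = z := Real.exp_log hz0
  have hEl : 2000 * l ≤ (E : ℝ) * l := mul_le_mul_of_nonneg_right hE' (by linarith)
  have hM0 : 0 < M := lt_of_lt_of_le (by positivity) hM
  have hg0 : 0 < g := lt_of_lt_of_le (Real.exp_pos _) hg
  have hMg : 0 < M * g := mul_pos hM0 hg0
  set Z := ((z ^ (E / 32) : ℕ) : ℝ) with hZ
  have hZ1 : Z ^ 2 ≤ Real.exp (1 / 16 * (E * l)) := by
    have e1 : Z = Real.exp (((E / 32 : ℕ) : ℝ) * l) := by
      rw [hZ, mul_comm, Real.exp_mul, hzl, Real.rpow_natCast]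
      push_cast
      rfl
    rw [e1, ← Real.exp_nat_mul]
    apply Real.exp_le_exp.2
    have e2 : ((E / 32 : ℕ) : ℝ) ≤ (E : ℝ) / 32 := Nat.cast_div_le
    have e3 := mul_le_mul_of_nonneg_right e2 (by linarith : 0 ≤ l)
    push_cast
    linarith
  have hbig : 2 * Z ^ 2 + 2 * (z * Z ^ 2) ≤ 1 / 2 * (Real.exp (-(1 / 2 * E)) * (M * g)) := by
    have f1 : 2 * Z ^ 2 + 2 * (z * Z ^ 2) ≤ 4 * (z * Z ^ 2) := by
      have : Z ^ 2 ≤ z * Z ^ 2 := le_mul_of_one_le_left (sq_nonneg _) hz1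
      linarith
    have f2 : z * Z ^ 2 ≤ Real.exp (l + 1 / 16 * (E * l)) := by
      rw [Real.exp_add, hzl]
      exact mul_le_mul_of_nonneg_left hZ1 hz0.le
    have f3 : 1 / 2 * Real.exp (65 / 100 * (E * l)) * Real.exp (-(1 / 10 * l)) ≤ M * g :=
      mul_le_mul hM hg (Real.exp_pos _).le hM0.le
    have f4 : (16 : ℝ) ≤ Real.exp 15 := by
      have := Real.add_one_le_exp (15 : ℝ)
      linarith
    have f5 : 16 * Real.exp (l + 1 / 16 * (E * l)) ≤ Real.exp (-(1 / 2 * E)) *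
        (Real.exp (65 / 100 * (E * l)) * Real.exp (-(1 / 10 * l))) := by
      calc 16 * Real.exp (l + 1 / 16 * (E * l))
          ≤ Real.exp 15 * Real.exp (l + 1 / 16 * (E * l)) :=
            mul_le_mul_of_nonneg_right f4 (Real.exp_pos _).le
        _ = Real.exp (15 + (l + 1 / 16 * (E * l))) := (Real.exp_add _ _).symm
        _ ≤ Real.exp (-(1 / 2 * E) + (65 / 100 * (E * l) + -(1 / 10 * l))) :=
            Real.exp_le_exp.2 (by linarith)
        _ = _ := by rw [Real.exp_add, Real.exp_add]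
    have f6 := mul_le_mul_of_nonneg_left f3 (Real.exp_pos (-(1 / 2 * (E : ℝ)))).le
    linarith
  have hsm : 2 * Real.exp (-(E : ℝ)) ≤ 1 / 2 * Real.exp (-(1 / 2 * E)) := by
    have f4 : (4 : ℝ) ≤ Real.exp 3 := by
      have := Real.add_one_le_exp (3 : ℝ)
      linarith
    have : 4 * Real.exp (-(E : ℝ)) ≤ Real.exp (-(1 / 2 * E)) := by
      calc 4 * Real.exp (-(E : ℝ)) ≤ Real.exp 3 * Real.exp (-(E : ℝ)) :=
            mul_le_mul_of_nonneg_right f4 (Real.exp_pos _).le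
        _ = Real.exp (3 + -(E : ℝ)) := (Real.exp_add _ _).symm
        _ ≤ _ := Real.exp_le_exp.2 (by linarith)
    linarith
  have hsm2 := mul_le_mul_of_nonneg_right hsm hMg.le
  have hZ0 : 0 ≤ Z ^ 2 := sq_nonneg _
  have hzZ0 : 0 ≤ z * Z ^ 2 := mul_nonneg hz0.le hZ0
  have he0 : 0 ≤ Real.exp (-(E : ℝ)) * (M * g) := by positivity
  rw [abs_le] at h3 ⊢
  refine ⟨⟨?_, ?_⟩, ?_⟩ <;> linarith [h3.1, h3.2]

theorem tl (hBH : StmtBH) (hBM : StmtBM) : StmtTL := by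
  obtain ⟨E1, h1⟩ := hBM
  obtain ⟨E2, h2⟩ := size
  obtain ⟨E3, h3⟩ := size_gg (1 / 10) (by norm_num)
  refine ⟨1 / 2, by norm_num, max (max E1 E2) (max E3 2000), fun E z x y hE hSu u v Q b hIn B hBy
    hBk d hd hdD => ?_⟩
  have hE1 : E1 ≤ E := (le_max_left _ _).trans ((le_max_left _ _).trans hE)
  have hE2 : E2 ≤ E := (le_max_right _ _).trans ((le_max_left _ _).trans hE)
  have hE3 : E3 ≤ E := (le_max_left _ _).trans ((le_max_right _ _).trans hE)
  have hE4 : 2000 ≤ E := (le_max_right _ _).trans ((le_max_right _ _).trans hE)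
  obtain ⟨a1, a2, a3, a4, a5, a6, a7, a8, a9, a10, a11, a12, a13, a14⟩ := h2 E z x y hE2 hSu
  obtain ⟨-, h3'⟩ := h3 E z x y hE3 hSu
  obtain ⟨hg1, -, -⟩ := h3' B.card hBk
  obtain ⟨b1, b2, b3, b4, b5⟩ := hSu
  obtain ⟨hQd, hb, hxuv⟩ := hIn
  have hQ0 : 0 < Q := by omega
  have hE' : (2000 : ℝ) ≤ E := by exact_mod_cast hE4
  have hlogx : 0 ≤ Real.log x := by linarith [sq_nonneg (E : ℝ)]
  have hpQ : ∀ p : ℕ, p.Prime → p ∣ Q → p ≤ y := by
    intro p hp hpd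
    have h1 := (Nat.Prime.dvd_primorial_iff hp).1 (hpd.trans hQd)
    have h2 : (⌊Real.log x / 20⌋₊ : ℝ) ≤ Real.log x / 20 := Nat.floor_le (by positivity)
    have h3 : (p : ℝ) ≤ (⌊Real.log x / 20⌋₊ : ℝ) := by exact_mod_cast h1
    have h4 : (p : ℝ) ≤ y := by linarith
    exact_mod_cast h4
  constructor
  · intro hcc
    have hd0 : ∀ i ∈ B, 0 < d i := fun i hi => Nat.pos_of_ne_zero (hd i hi).1.ne_zero
    have hc : ∀ i ∈ B, Nat.Coprime Q (d i) := by
      intro i hi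
      by_contra hcon
      obtain ⟨p, hp, h1, h2⟩ := Nat.Prime.not_coprime_iff_dvd.1 hcon
      have h3 := hpQ p hp h1
      have h4 := (hd i hi).2 p hp h2
      omega
    have hq : ∀ p : ℕ, p.Prime → y < p → p ≤ z → ¬ p ∣ Q * ∏ i ∈ B, d i := by
      intro p hp hyp hpz hdv
      rcases (Nat.Prime.dvd_mul hp).1 hdv with h | h
      · have := hpQ p hp h
        omega
      · obtain ⟨i, hi, h2⟩ := (Nat.Prime.prime hp).exists_mem_finset_dvd h
        have h4 := (hd i hi).2 p hp h2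
        omega
    have huv : u ≤ v := by omega
    set k := B.card with hk
    have hky : k ≤ y := by
      have : k ≤ (Icc 1 y).card := card_le_card hBy
      simpa using this
    obtain ⟨c1, c2, c3, c4, c5⟩ := h1 E y z k hE1 b1 a6 a9 hBk
    set M := XI u v Q / (∏ i ∈ B, (d i : ℝ)) with hMdef
    have hDpos : 0 < ∏ i ∈ B, (d i : ℝ) := Finset.prod_pos fun i hi => by exact_mod_cast hd0 i hi
    have hD : ∏ i ∈ B, (d i : ℝ) ≤ (z : ℝ) ^ (E / 4) := by exact_mod_cast hdD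
    have hM : 1 / 2 * Real.exp (65 / 100 * (E * Real.log z)) ≤ M :=
      (M_lower E z x hE4 (by linarith) b2 _ hDpos hD).trans
        (div_le_div_of_nonneg_right (XX_le_XI hQ0 hQd hxuv) hDpos.le)
    have hM0 : 0 < M := lt_of_lt_of_le (by positivity) hM
    have hgoal : XI u v Q * (gg y z k * ∏ i ∈ B, (1 / (d i : ℝ))) = M * gg y z k := by
      rw [Finset.prod_div_distrib, Finset.prod_const_one, hMdef]
      ring
    rw [hgoal]
    set F := FF u v Q b B d with hF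
    have hcount : ∀ A : Finset ℕ, A ⊆ pr y z →
        |((F.filter (fun n => A ⊆ hit y z B n)).card : ℝ)
          - M * ∏ p ∈ A, ((k : ℝ) / p)| ≤ 2 * (k : ℝ) ^ A.card :=
      fun A hA => count_hit u v Q y z b B d huv hb hd0 hc hcc hBy hq A hA
    have hAA : ∀ A ∈ AA E y z, A ⊆ pr y z := fun A hA => mem_powerset.1 (mem_filter.1 hA).1
    have hAX : ∀ t, ∀ A ∈ AX E y z t, A ⊆ pr y z :=
      fun t A hA => mem_powerset.1 (mem_filter.1 hA).1
    have hBHn := fun n => hBH E y z (hit y z B n) (by omega) (hit_sub y z B n)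
    set SU := ∑ n ∈ F, ∏ t ∈ range z, Ut E y z t (hit y z B n) with hSU
    set SE := ∑ n ∈ F, EF E y z (hit y z B n) with hSE
    have hcnt : (((NI u v Q b).filter (fun n => ∀ i ∈ B, d i ∣ n + i ∧ Rg y z (n + i))).card : ℝ) =
        ∑ n ∈ F, (if hit y z B n = ∅ then (1 : ℝ) else 0) := by
      rw [← Finset.sum_filter, Finset.sum_const, nsmul_eq_mul, mul_one, hF, FF,
        Finset.filter_filter]
      congr 2
      refine Finset.filter_congr fun n _ => ?_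
      rw [hit_empty]
      exact ⟨fun h => ⟨fun i hi => (h i hi).1, fun i hi => (h i hi).2⟩,
        fun h i hi => ⟨h.1 i hi, h.2 i hi⟩⟩
    rw [hcnt]
    refine final E z M (gg y z k) _ SU SE hE4 a1 hM hg1 ?_ ?_ ?_ ?_
    · exact Finset.sum_le_sum fun n _ => (hBHn n).2.1
    · rw [hSU, hSE, ← Finset.sum_add_distrib]
      exact Finset.sum_le_sum fun n _ => (hBHn n).2.2.1
    · have e1 : SU = ∑ n ∈ F, ∑ A ∈ (AA E y z).filter (fun A => A ⊆ hit y z B n),
          (-1 : ℝ) ^ A.card := Finset.sum_congr rfl fun n _ => (hBHn n).2.2.2.1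
      have e2 := sum_hit F y z B M (AA E y z) (fun A hA => hcount A (hAA A hA))
      have e3 := sum_pow_le y z k (z ^ (E / 32)) hky (AA E y z) hAA c4
      rw [← e1, ← hk] at e2
      have e4 : |M * ∑ A ∈ AA E y z, (-1 : ℝ) ^ A.card * ∏ p ∈ A, ((k : ℝ) / p)
          - M * gg y z k| ≤ Real.exp (-(E : ℝ)) * (M * gg y z k) := by
        rw [← mul_sub, abs_mul, abs_of_pos hM0]
        have := mul_le_mul_of_nonneg_left c2 hM0.le
        linarith
      have e5 := abs_sub_le SU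
        (M * ∑ A ∈ AA E y z, (-1 : ℝ) ^ A.card * ∏ p ∈ A, ((k : ℝ) / p)) (M * gg y z k)
      linarith
    · have e1 : SE = -∑ t ∈ range z, ∑ n ∈ F,
          ∑ A ∈ (AX E y z t).filter (fun A => A ⊆ hit y z B n), (-1 : ℝ) ^ A.card := by
        rw [Finset.sum_comm, ← Finset.sum_neg_distrib]
        exact Finset.sum_congr rfl fun n _ => (hBHn n).2.2.2.2
      have e2 : ∀ t ∈ range z, -(2 * ((z ^ (E / 32) : ℕ) : ℝ) ^ 2) ≤
          ∑ n ∈ F, ∑ A ∈ (AX E y z t).filter (fun A => A ⊆ hit y z B n), (-1 : ℝ) ^ A.card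
          - M * ∑ A ∈ AX E y z t, (-1 : ℝ) ^ A.card * ∏ p ∈ A, ((k : ℝ) / p) := by
        intro t ht
        have f1 := sum_hit F y z B M (AX E y z t) (fun A hA => hcount A (hAX t A hA))
        have f2 := sum_pow_le y z k (z ^ (E / 32)) hky (AX E y z t) (hAX t)
          (c5 t (mem_range.1 ht))
        have f3 := (abs_le.1 f1).1
        rw [← hk] at f3
        linarith
      have e3 := Finset.sum_le_sum e2
      rw [Finset.sum_sub_distrib, Finset.sum_const, card_range, nsmul_eq_mul, ← Finset.mul_sum]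
        at e3
      have e4 := mul_le_mul_of_nonneg_left c3 hM0.le
      linarith
  · intro hcc
    push Not at hcc
    obtain ⟨i, hi, j, hj, hij, hcop⟩ := hcc
    obtain ⟨p, hp, h1, h2⟩ := Nat.Prime.not_coprime_iff_dvd.1 hcop
    have hzp := (hd i hi).2 p hp h1
    rw [Finset.card_eq_zero, Finset.filter_eq_empty_iff]
    intro n _ hn
    have h3 : p ∣ n + i := h1.trans (hn i hi).1
    have h4 : p ∣ n + j := h2.trans (hn j hj).1
    have hi1 := mem_Icc.1 (hBy hi)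
    have hj1 := mem_Icc.1 (hBy hj)
    rcases lt_or_gt_of_ne hij with h | h
    · have h5 : p ∣ (n + j) - (n + i) := Nat.dvd_sub h4 h3
      have h6 := Nat.le_of_dvd (by omega) h5
      omega
    · have h5 : p ∣ (n + i) - (n + j) := Nat.dvd_sub h3 h4
      have h6 := Nat.le_of_dvd (by omega) h5
      omega

end Pool.Agent.Helper51.TU
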